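import Mathlib.LinearAlgebra.Matrix.NonsingularInverse
import Mathlib.LinearAlgebra.Matrix.PosDef
import Mathlib.Analysis.SpecialFunctions.Pow.Real
import Mathlib.Tactic

/-!
# Minimal `∞`-norm of inverses of bounded diagonally dominant matrices

Write `K = J⁻¹` and let `r_i` be the row sums of `J`.  Weighting the rows of `K` by the `r_i`
gives `‖K‖_∞ ∑ r_i ≥ 2 ∑ r_i K_ii - n`.  The diagonal entries are bounded below by test vectors
`λ (e_i - t ∑_{j ≠ i} e_j)`, and the resulting scalar inequality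
`2 r_i K_ii - 1 ≥ ‖S⁻¹‖_∞ r_i` holds for every row.
-/

open Matrix Finset

namespace Pool.Agent.Results.MP_7ad8d2_an.MinimalInverse

variable {n : ℕ}

/-- The diagonal dominance of row `i` of an entrywise positive matrix. -/
def dom (J : Matrix (Fin n) (Fin n) ℝ) (i : Fin n) : ℝ := J i i - ∑ j ∈ univ.erase i, J i j

/-- The class `C_n(m, δ)`. -/
structure InC (m δ : ℝ) (J : Matrix (Fin n) (Fin n) ℝ) : Prop where
  symm : ∀ i j, J i j = J j i
  pos : ∀ i j, 0 < J i j
  le : ∀ i j, i ≠ j → J i j ≤ m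
  dom_nonneg : ∀ i, 0 ≤ dom J i
  dom_le : ∀ i, dom J i ≤ δ

/-- The matrix `S(α, m) = α I + m 𝟙 𝟙ᵀ`. -/
def S (n : ℕ) (α m : ℝ) : Matrix (Fin n) (Fin n) ℝ :=
  α • (1 : Matrix (Fin n) (Fin n) ℝ) + m • Matrix.of fun _ _ => 1

/-- The maximum absolute row sum. -/
noncomputable def normInf (A : Matrix (Fin n) (Fin n) ℝ) : ℝ := ⨆ i, ∑ j, |A i j|

/-- row sums -/
def rs (J : Matrix (Fin n) (Fin n) ℝ) (i : Fin n) : ℝ := ∑ j, J i j

lemma rs_eq (J : Matrix (Fin n) (Fin n) ℝ) (i : Fin n) :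
    rs J i = J i i + ∑ j ∈ univ.erase i, J i j := by
  rw [rs, ← Finset.add_sum_erase _ _ (mem_univ i)]

lemma quad_eq (J : Matrix (Fin n) (Fin n) ℝ) (x : Fin n → ℝ) :
    x ⬝ᵥ J *ᵥ x = ∑ i, ∑ j, J i j * (x i * x j) := by
  simp only [dotProduct, mulVec, Finset.mul_sum]
  refine Finset.sum_congr rfl fun i _ => Finset.sum_congr rfl fun j _ => by ring

lemma quad_id {m δ : ℝ} {J : Matrix (Fin n) (Fin n) ℝ} (h : InC m δ J) (x : Fin n → ℝ) :
    2 * (x ⬝ᵥ J *ᵥ x) = 2 * ∑ i, dom J i * x i ^ 2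
      + ∑ i, ∑ j ∈ univ.erase i, J i j * (x i + x j) ^ 2 := by
  have e1 : ∑ i, ∑ j, J i j * (x i + x j) ^ 2 = 2 * (x ⬝ᵥ J *ᵥ x) + 2 * ∑ i, rs J i * x i ^ 2 := by
    have a1 : ∑ i, ∑ j, J i j * (x i + x j) ^ 2
        = ∑ i, ∑ j, (2 * (J i j * (x i * x j)) + J i j * x i ^ 2 + J i j * x j ^ 2) :=
      Finset.sum_congr rfl fun i _ => Finset.sum_congr rfl fun j _ => by ring
    have a2 : ∑ i, ∑ j, J i j * x j ^ 2 = ∑ i, ∑ j, J i j * x i ^ 2 := by
      rw [Finset.sum_comm]
      refine Finset.sum_congr rfl fun i _ => Finset.sum_congr rfl fun j _ => by rw [h.symm]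
    have a3 : ∑ i, ∑ j, J i j * x i ^ 2 = ∑ i, rs J i * x i ^ 2 :=
      Finset.sum_congr rfl fun i _ => by rw [rs, Finset.sum_mul]
    rw [a1]
    simp only [Finset.sum_add_distrib, ← Finset.mul_sum]
    rw [a2, a3, quad_eq]
    ring
  have e2 : ∑ i, ∑ j, J i j * (x i + x j) ^ 2
      = ∑ i, 4 * (J i i * x i ^ 2) + ∑ i, ∑ j ∈ univ.erase i, J i j * (x i + x j) ^ 2 := by
    rw [← Finset.sum_add_distrib]
    refine Finset.sum_congr rfl fun i _ => ?_
    rw [← Finset.add_sum_erase _ _ (mem_univ i)]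
    ring
  have e3 : ∑ i, rs J i * x i ^ 2 = 2 * ∑ i, J i i * x i ^ 2 - ∑ i, dom J i * x i ^ 2 := by
    rw [Finset.mul_sum, ← Finset.sum_sub_distrib]
    refine Finset.sum_congr rfl fun i _ => ?_
    rw [rs_eq, dom]; ring
  rw [← Finset.mul_sum] at e2
  linarith

lemma quad_nonneg {m δ : ℝ} {J : Matrix (Fin n) (Fin n) ℝ} (h : InC m δ J) (x : Fin n → ℝ) :
    0 ≤ x ⬝ᵥ J *ᵥ x := by
  have h1 := quad_id h x
  have h2 : 0 ≤ ∑ i, dom J i * x i ^ 2 :=
    Finset.sum_nonneg fun i _ => mul_nonneg (h.dom_nonneg i) (sq_nonneg _)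
  have h3 : 0 ≤ ∑ i, ∑ j ∈ univ.erase i, J i j * (x i + x j) ^ 2 :=
    Finset.sum_nonneg fun i _ => Finset.sum_nonneg fun j _ =>
      mul_nonneg (h.pos i j).le (sq_nonneg _)
  linarith

lemma quad_zero (hn : 3 ≤ n) {m δ : ℝ} {J : Matrix (Fin n) (Fin n) ℝ} (h : InC m δ J)
    (x : Fin n → ℝ) (hx : x ⬝ᵥ J *ᵥ x = 0) : x = 0 := by
  have h1 := quad_id h x
  have h2 : 0 ≤ ∑ i, dom J i * x i ^ 2 :=
    Finset.sum_nonneg fun i _ => mul_nonneg (h.dom_nonneg i) (sq_nonneg _)
  have h3 : ∑ i, ∑ j ∈ univ.erase i, J i j * (x i + x j) ^ 2 ≤ 0 := by linarith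
  have key : ∀ i j, i ≠ j → x i + x j = 0 := by
    intro i j hij
    by_contra hne
    have : 0 < ∑ i, ∑ j ∈ univ.erase i, J i j * (x i + x j) ^ 2 := by
      refine Finset.sum_pos' (fun i _ => Finset.sum_nonneg fun j _ =>
        mul_nonneg (h.pos i j).le (sq_nonneg _)) ⟨i, mem_univ i, ?_⟩
      refine Finset.sum_pos' (fun j _ => mul_nonneg (h.pos i j).le (sq_nonneg _))
        ⟨j, mem_erase.2 ⟨hij.symm, mem_univ j⟩, ?_⟩
      exact mul_pos (h.pos i j) (by positivity)
    linarith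
  funext i
  -- choose two further indices
  obtain ⟨j, hj⟩ : ∃ j : Fin n, j ∉ ({i} : Finset (Fin n)) :=
    Finset.exists_mem_notMem_of_card_lt_card (s := {i}) (t := univ) (by simp; omega) |>.imp
      fun _ h => h.2
  obtain ⟨k, hk⟩ : ∃ k : Fin n, k ∉ ({i, j} : Finset (Fin n)) :=
    Finset.exists_mem_notMem_of_card_lt_card (s := {i, j}) (t := univ)
      (by have := Finset.card_le_two (a := i) (b := j); simp only [card_univ, Fintype.card_fin]; omega) |>.imp
      fun _ h => h.2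
  simp only [mem_singleton, mem_insert, not_or] at hj hk
  have a1 := key i j (Ne.symm hj)
  have a2 := key i k (Ne.symm hk.1)
  have a3 := key j k (Ne.symm hk.2)
  simp only [Pi.zero_apply]
  linarith

lemma det_ne (hn : 3 ≤ n) {m δ : ℝ} {J : Matrix (Fin n) (Fin n) ℝ} (h : InC m δ J) :
    IsUnit J.det := by
  rw [isUnit_iff_ne_zero]
  intro h0
  obtain ⟨v, hv, hv0⟩ := Matrix.exists_mulVec_eq_zero_iff.2 h0
  exact hv (quad_zero hn h v (by rw [hv0]; simp))

lemma K_symm {m δ : ℝ} {J : Matrix (Fin n) (Fin n) ℝ} (h : InC m δ J) :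
    (J⁻¹)ᵀ = J⁻¹ := by
  have : Jᵀ = J := by ext i j; exact h.symm j i
  rw [Matrix.transpose_nonsing_inv, this]

/-- test vectors -/
lemma K_lower (hn : 3 ≤ n) {m δ : ℝ} {J : Matrix (Fin n) (Fin n) ℝ} (h : InC m δ J)
    (y : Fin n → ℝ) (i : Fin n) : 2 * y i - y ⬝ᵥ J *ᵥ y ≤ J⁻¹ i i := by
  have hu := det_ne hn h
  have h0 := quad_nonneg h (y - J⁻¹ *ᵥ Pi.single i 1)
  have e1 : J *ᵥ (J⁻¹ *ᵥ Pi.single i 1) = Pi.single i 1 := by
    rw [mulVec_mulVec, Matrix.mul_nonsing_inv _ hu, one_mulVec]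
  have e2 : (J⁻¹ *ᵥ Pi.single i 1) ⬝ᵥ J *ᵥ y = y i := by
    rw [dotProduct_mulVec, ← mulVec_transpose, ]
    have : Jᵀ = J := by ext i j; exact h.symm j i
    rw [this, e1, single_dotProduct, one_mul]
  have e3 : (J⁻¹ *ᵥ Pi.single i 1) ⬝ᵥ Pi.single i 1 = J⁻¹ i i := by
    rw [dotProduct_single, mul_one, mulVec_single_one]
    rfl
  rw [mulVec_sub, e1, sub_dotProduct, dotProduct_sub, dotProduct_sub, e2, e3,
    dotProduct_single, mul_one] at h0
  linarith

/-- value of the quadratic form at `λ((1+t)e_i - t 1)` -/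
lemma quad_test {m δ : ℝ} {J : Matrix (Fin n) (Fin n) ℝ} (h : InC m δ J) (i : Fin n) (l t : ℝ) :
    (fun k => l * ((1 + t) * (if k = i then 1 else 0) - t)) ⬝ᵥ
      J *ᵥ (fun k => l * ((1 + t) * (if k = i then 1 else 0) - t))
      = l ^ 2 * ((1 + t) ^ 2 * J i i - 2 * t * (1 + t) * rs J i + t ^ 2 * ∑ k, rs J k) := by
  rw [quad_eq]
  have e : ∀ a b : Fin n, J a b * ((l * ((1 + t) * (if a = i then 1 else 0) - t)) *
      (l * ((1 + t) * (if b = i then 1 else 0) - t)))
      = l ^ 2 * (1 + t) ^ 2 * (if a = i then (if b = i then J a b else 0) else 0)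
        - l ^ 2 * t * (1 + t) * (if a = i then J a b else 0)
        - l ^ 2 * t * (1 + t) * (if b = i then J a b else 0) + l ^ 2 * t ^ 2 * J a b := by
    intro a b
    split_ifs <;> ring
  have hs : ∑ a, J a i = rs J i := Finset.sum_congr rfl fun a _ => h.symm a i
  simp only [e, Finset.sum_add_distrib, Finset.sum_sub_distrib, ← Finset.mul_sum]
  simp only [Finset.sum_ite_eq', Finset.mem_univ, if_true, Finset.sum_ite_irrel,
    Finset.sum_const_zero]
  rw [hs]
  have : ∑ b, J i b = rs J i := rfl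
  rw [this]
  simp only [rs]
  ring

/-- The scalar inequality. -/
lemma scalar {L m δ r : ℝ} (hL : 2 ≤ L) (hm : 0 < m) (hδ : 0 ≤ δ) (h1 : δ < r)
    (h2 : r ≤ 2 * m * L + δ) :
    let κ := 2 * m * L + δ
    let α := m * (L - 1) + δ
    let ρ := (α + 2 * m * L) / (α * κ)
    0 < L * κ * (r + δ) + r * δ - r ^ 2 ∧ 0 < 2 * L * κ - r + δ ∧
    (1 + ρ * r) * (L * κ * (r + δ) + r * δ - r ^ 2) ≤ 2 * r * (2 * L * κ - r + δ) ∧
    (r < κ → (1 + ρ * r) * (L * κ * (r + δ) + r * δ - r ^ 2) < 2 * r * (2 * L * κ - r + δ)) := by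
  intro κ α ρ
  have hκ : 0 < κ := by positivity
  have hα : 0 < α := by
    have : 0 < m * (L - 1) := mul_pos hm (by linarith)
    show 0 < m * (L - 1) + δ
    linarith
  have hr0 : 0 < r := by linarith
  have hρ : 0 < ρ := by positivity
  have hrκ : r ≤ κ := h2
  have hδκ : δ < κ := by linarith
  have hρκ : 1 < ρ * κ := by
    have : ρ * κ = (α + 2 * m * L) / α := by
      simp only [ρ]; field_simp
    rw [this, lt_div_iff₀ hα]
    have : 0 < 2 * m * L := by positivity
    linarith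
  have hN : 0 < L * κ * (r + δ) + r * δ - r ^ 2 := by
    have a1 : r ^ 2 ≤ κ * r := by nlinarith
    have a2 : κ * r < L * κ * (r + δ) := by
      have : κ * r * 1 < κ * r * L := by
        apply mul_lt_mul_of_pos_left _ (by positivity); linarith
      have : 0 ≤ L * κ * δ := by positivity
      nlinarith
    have a3 : 0 ≤ r * δ := by positivity
    linarith
  have hE : 0 < 2 * L * κ - r + δ := by nlinarith
  -- the factorisation
  set Q : ℝ := -ρ * r ^ 2 + r * (1 + ρ * (δ + (L - 1) * κ)) - L * δ with hQ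
  have hfac : 2 * r * (2 * L * κ - r + δ) - (1 + ρ * r) * (L * κ * (r + δ) + r * δ - r ^ 2)
      = (κ - r) * Q := by
    have hrel : ρ * ((L + 1) * δ + (L - 1) * κ) * κ = (3 * L - 1) * κ - (L - 1) * δ := by
      simp only [ρ]
      have : (L + 1) * δ + (L - 1) * κ = 2 * L * α := by simp only [κ, α]; ring
      rw [this]
      field_simp
      simp only [κ, α]
      ring
    have h' : (2 * r * (2 * L * κ - r + δ) - (1 + ρ * r) * (L * κ * (r + δ) + r * δ - r ^ 2)
      - (κ - r) * Q) = r * (((3 * L - 1) * κ - (L - 1) * δ)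
        - ρ * ((L + 1) * δ + (L - 1) * κ) * κ) := by
      rw [hQ]; ring
    rw [hrel] at h'
    linarith
  have Qκ : 0 < -ρ * κ ^ 2 + κ * (1 + ρ * (δ + (L - 1) * κ)) - L * δ := by
    have e : -ρ * κ ^ 2 + κ * (1 + ρ * (δ + (L - 1) * κ)) - L * δ
        = (L - 1) * (κ - δ) + ((L - 2) * κ + δ) * (ρ * κ - 1) := by ring
    rw [e]
    have a1 : 0 < (L - 1) * (κ - δ) := mul_pos (by linarith) (by linarith)
    have a2 : 0 ≤ ((L - 2) * κ + δ) * (ρ * κ - 1) := by
      apply mul_nonneg _ (by linarith)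
      have := mul_nonneg (by linarith : (0:ℝ) ≤ L - 2) hκ.le
      linarith
    linarith
  have hQpos : 0 < Q := by
    have e : (κ - δ) * Q = (κ - r) * ((L - 1) * δ * (ρ * κ - 1))
        + (r - δ) * (-ρ * κ ^ 2 + κ * (1 + ρ * (δ + (L - 1) * κ)) - L * δ)
        + ρ * ((r - δ) * (κ - r) * (κ - δ)) := by
      rw [hQ]; ring
    have b1 : 0 ≤ (κ - r) * ((L - 1) * δ * (ρ * κ - 1)) := by
      apply mul_nonneg (by linarith)
      apply mul_nonneg (mul_nonneg (by linarith) hδ) (by linarith)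
    have b2 := mul_pos (by linarith : (0:ℝ) < r - δ) Qκ
    have b3 : 0 ≤ ρ * ((r - δ) * (κ - r) * (κ - δ)) := by
      apply mul_nonneg hρ.le
      apply mul_nonneg (mul_nonneg (by linarith) (by linarith)) (by linarith)
    have : 0 < (κ - δ) * Q := by rw [e]; linarith
    exact (pos_iff_pos_of_mul_pos this).1 (by linarith)
  refine ⟨hN, hE, ?_, fun hlt => ?_⟩
  · have := mul_nonneg (by linarith : (0:ℝ) ≤ κ - r) hQpos.le
    linarith
  · have := mul_pos (by linarith : (0:ℝ) < κ - r) hQpos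
    linarith

/-- The rowwise inequality. -/
lemma row (hn : 3 ≤ n) {m δ : ℝ} (hm : 0 < m) (hδ : 0 ≤ δ) {J : Matrix (Fin n) (Fin n) ℝ}
    (h : InC m δ J) (i : Fin n) :
    let κ := 2 * m * ((n : ℝ) - 1) + δ
    let α := m * ((n : ℝ) - 1 - 1) + δ
    let ρ := (α + 2 * m * ((n : ℝ) - 1)) / (α * κ)
    rs J i ≤ κ ∧ ρ * rs J i ≤ 2 * rs J i * J⁻¹ i i - 1 ∧
      (rs J i < κ → ρ * rs J i < 2 * rs J i * J⁻¹ i i - 1) := by
  intro κ α ρ
  have hn' : (3:ℝ) ≤ n := by exact_mod_cast hn
  set L : ℝ := (n : ℝ) - 1 with hL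
  have hL2 : 2 ≤ L := by linarith
  have hκ : 0 < κ := by positivity
  have hα : 0 < α := by
    have : 0 < m * (L - 1) := mul_pos hm (by linarith)
    show 0 < m * (L - 1) + δ
    linarith
  have hcard : ((univ.erase i : Finset (Fin n)).card : ℝ) = L := by
    rw [Finset.card_erase_of_mem (mem_univ i), Finset.card_univ, Fintype.card_fin,
      Nat.cast_sub (by omega)]
    simp [hL]
  have hq : ∀ k, ∑ j ∈ univ.erase k, J k j ≤ m * L := by
    intro k
    have hcardk : ((univ.erase k : Finset (Fin n)).card : ℝ) = L := by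
      rw [Finset.card_erase_of_mem (mem_univ k), Finset.card_univ, Fintype.card_fin,
        Nat.cast_sub (by omega)]
      simp [hL]
    calc ∑ j ∈ univ.erase k, J k j ≤ ∑ j ∈ univ.erase k, m :=
          Finset.sum_le_sum fun j hj => h.le k j (Finset.ne_of_mem_erase hj).symm
      _ = m * L := by rw [Finset.sum_const, nsmul_eq_mul, hcardk]; ring
  have hr : ∀ k, rs J k ≤ κ := by
    intro k
    have h1 := h.dom_le k
    have h2 := hq k
    rw [dom] at h1
    rw [rs_eq]
    show _ ≤ 2 * m * L + δ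
    linarith
  set r := rs J i with hrdef
  have hJi := h.pos i i
  have hqi : 0 ≤ ∑ j ∈ univ.erase i, J i j := Finset.sum_nonneg fun j _ => (h.pos i j).le
  have hri : r = J i i + ∑ j ∈ univ.erase i, J i j := rs_eq J i
  have hr0 : 0 < r := by linarith
  refine ⟨hr i, ?_⟩
  by_cases hcase : r ≤ δ
  · -- small rows
    have h1 := K_lower hn h (fun k => (1 / J i i) * ((1 + 0) * (if k = i then 1 else 0) - 0)) i
    rw [quad_test h i (1 / J i i) 0] at h1
    simp only [if_true] at h1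
    have h2 : 1 / J i i ≤ J⁻¹ i i := by
      refine le_trans (le_of_eq ?_) h1
      field_simp
      ring
    have h3 : 1 ≤ r * J⁻¹ i i := by
      calc 1 = J i i * (1 / J i i) := by field_simp
        _ ≤ r * J⁻¹ i i := by
          apply mul_le_mul (by linarith) h2 (by positivity) hr0.le
    have h4 : ρ * r < 1 := by
      have : ρ * δ < 1 := by
        have hdpos : 0 < δ := lt_of_lt_of_le hr0 hcase
        simp only [ρ]
        rw [div_mul_eq_mul_div, div_lt_one (by positivity)]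
        have e : α * κ - (α + 2 * m * L) * δ = (m * (L - 1)) * (2 * m * L) := by
          simp only [α, κ]; ring
        have : 0 < (m * (L - 1)) * (2 * m * L) := by
          apply mul_pos (mul_pos hm (by linarith)) (by positivity)
        linarith
      have hρ : 0 ≤ ρ := by positivity
      calc ρ * r ≤ ρ * δ := mul_le_mul_of_nonneg_left hcase hρ
        _ < 1 := this
    have h5 : ρ * r < 2 * r * J⁻¹ i i - 1 := by linarith
    exact ⟨h5.le, fun _ => h5⟩
  · push Not at hcase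
    obtain ⟨s1, s2, s3, s4⟩ := scalar (L := L) (m := m) (δ := δ) (r := r) hL2 hm hδ hcase (hr i)
    set N : ℝ := L * κ * (r + δ) + r * δ - r ^ 2 with hN
    set E : ℝ := 2 * L * κ - r + δ with hE
    have s1' : 0 < N := s1
    have s2' : 0 < E := s2
    have s3' : (1 + ρ * r) * N ≤ 2 * r * E := s3
    have s4' : r < κ → (1 + ρ * r) * N < 2 * r * E := s4
    set t : ℝ := (r - δ) / E with ht
    have h1 := K_lower hn h (fun k => (E / N) * ((1 + t) * (if k = i then 1 else 0) - t)) i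
    rw [quad_test h i (E / N) t] at h1
    simp only [if_true] at h1
    -- bound of the quadratic form
    have hsumR : ∑ k, rs J k ≤ L * κ + r := by
      rw [← Finset.add_sum_erase _ _ (mem_univ i)]
      have : ∑ k ∈ univ.erase i, rs J k ≤ L * κ := by
        calc ∑ k ∈ univ.erase i, rs J k ≤ ∑ k ∈ univ.erase i, κ :=
              Finset.sum_le_sum fun k _ => hr k
          _ = L * κ := by rw [Finset.sum_const, nsmul_eq_mul, hcard]
      linarith
    have hJ2 : J i i ≤ (r + δ) / 2 := by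
      have := h.dom_le i
      rw [dom] at this
      linarith
    have hDle : (1 + t) ^ 2 * J i i - 2 * t * (1 + t) * r + t ^ 2 * ∑ k, rs J k ≤ N / E := by
      have e : N / E = (1 + t) ^ 2 * ((r + δ) / 2) - 2 * t * (1 + t) * r + t ^ 2 * (L * κ + r) := by
        rw [ht, hN]
        field_simp
        rw [hE]
        ring
      rw [e]
      have a1 := mul_le_mul_of_nonneg_left hJ2 (sq_nonneg (1 + t))
      have a2 := mul_le_mul_of_nonneg_left hsumR (sq_nonneg t)
      linarith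
    have hK : E / N ≤ J⁻¹ i i := by
      refine le_trans ?_ h1
      have a1 := mul_le_mul_of_nonneg_left hDle (sq_nonneg (E / N))
      have a2 : (E / N) ^ 2 * (N / E) = E / N := by field_simp
      rw [a2] at a1
      have a3 : 2 * (E / N * ((1 + t) * 1 - t)) = 2 * (E / N) := by ring
      rw [a3]
      linarith
    have hfin : 2 * r * (E / N) ≤ 2 * r * J⁻¹ i i := by gcongr
    constructor
    · have : 1 + ρ * r ≤ 2 * r * (E / N) := by
        rw [← mul_div_assoc, le_div_iff₀ s1']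
        exact s3'
      linarith
    · intro hlt
      have : 1 + ρ * r < 2 * r * (E / N) := by
        rw [← mul_div_assoc, lt_div_iff₀ s1']
        exact s4' hlt
      linarith

lemma le_normInf (A : Matrix (Fin n) (Fin n) ℝ) (i : Fin n) : ∑ j, |A i j| ≤ normInf A :=
  le_ciSup (f := fun i => ∑ j, |A i j|) (Set.finite_range _).bddAbove i

/-- The weighted sum. -/
lemma weighted (hn : 3 ≤ n) {m δ : ℝ} {J : Matrix (Fin n) (Fin n) ℝ} (h : InC m δ J) :
    ∑ i, (2 * rs J i * J⁻¹ i i - 1) ≤ normInf J⁻¹ * ∑ i, rs J i := by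
  have hu := det_ne hn h
  have hr0 : ∀ i, 0 ≤ rs J i := fun i => Finset.sum_nonneg fun j _ => (h.pos i j).le
  have e : ∑ i, rs J i * ∑ j, J⁻¹ i j = n := by
    have hT : Jᵀ = J := by ext i j; exact h.symm j i
    have e0 : ∑ i, rs J i * ∑ j, J⁻¹ i j
        = (J *ᵥ (fun _ => (1:ℝ))) ⬝ᵥ (J⁻¹ *ᵥ (fun _ => (1:ℝ))) := by
      simp [dotProduct, mulVec, rs]
    rw [e0]
    nth_rewrite 1 [← hT]
    rw [mulVec_transpose, ← dotProduct_mulVec, mulVec_mulVec, Matrix.mul_nonsing_inv _ hu,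
      one_mulVec]
    simp [dotProduct]
  have h1 : ∀ i, rs J i * (2 * J⁻¹ i i - ∑ j, J⁻¹ i j) ≤ rs J i * normInf J⁻¹ := by
    intro i
    apply mul_le_mul_of_nonneg_left _ (hr0 i)
    refine le_trans ?_ (le_normInf J⁻¹ i)
    rw [← Finset.add_sum_erase _ (fun j => J⁻¹ i j) (mem_univ i),
      ← Finset.add_sum_erase _ (fun j => |J⁻¹ i j|) (mem_univ i)]
    have a1 := le_abs_self (J⁻¹ i i)
    have a2 : -∑ j ∈ univ.erase i, J⁻¹ i j ≤ ∑ j ∈ univ.erase i, |J⁻¹ i j| := by
      rw [← Finset.sum_neg_distrib]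
      exact Finset.sum_le_sum fun j _ => neg_le_abs _
    linarith
  have h2 := Finset.sum_le_sum fun i (_ : i ∈ (univ : Finset (Fin n))) => h1 i
  rw [← Finset.sum_mul] at h2
  have h3 : ∑ i, rs J i * (2 * J⁻¹ i i - ∑ j, J⁻¹ i j)
      = ∑ i, (2 * rs J i * J⁻¹ i i - 1) := by
    have : ∑ i, rs J i * (2 * J⁻¹ i i - ∑ j, J⁻¹ i j)
        = ∑ i, 2 * rs J i * J⁻¹ i i - ∑ i, rs J i * ∑ j, J⁻¹ i j := by
      rw [← Finset.sum_sub_distrib]
      refine Finset.sum_congr rfl fun i _ => by ring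
    rw [this, e, Finset.sum_sub_distrib]
    simp
  rw [h3] at h2
  linarith

/-- The inverse of `S(α, m)`. -/
lemma S_inv {α m : ℝ} (hα : 0 < α) (hm : 0 < m) :
    (S n α m)⁻¹ = (1 / α) • (1 : Matrix (Fin n) (Fin n) ℝ)
      - (m / (α * (α + m * n))) • Matrix.of fun _ _ => 1 := by
  apply Matrix.inv_eq_right_inv
  have hκ : 0 < α + m * n := by positivity
  ext i j
  simp only [S, Matrix.mul_apply, Matrix.add_apply, Matrix.sub_apply, Matrix.smul_apply,
    Matrix.of_apply, smul_eq_mul, mul_one]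
  have : ∀ k : Fin n, (α * (1 : Matrix (Fin n) (Fin n) ℝ) i k + m)
      * (1 / α * (1 : Matrix (Fin n) (Fin n) ℝ) k j - m / (α * (α + m * n)))
      = (if i = k then (1 : Matrix (Fin n) (Fin n) ℝ) k j - α * (m / (α * (α + m * n))) else 0)
        + (if k = j then m / α else 0) - m * (m / (α * (α + m * n))) := by
    intro k
    simp only [Matrix.one_apply]
    split_ifs <;> field_simp <;> ring
  simp only [this, Finset.sum_add_distrib, Finset.sum_sub_distrib, Finset.sum_ite_eq,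
    Finset.sum_ite_eq', Finset.mem_univ, if_true, Finset.sum_const, Finset.card_univ,
    Fintype.card_fin, nsmul_eq_mul]
  field_simp
  ring

lemma S_norm (hn : 3 ≤ n) {α m : ℝ} (hα : 0 < α) (hm : 0 < m) :
    normInf (S n α m)⁻¹ = (α + m * (n - 2) + m * n) / (α * (α + m * n)) := by
  have hn' : (3:ℝ) ≤ n := by exact_mod_cast hn
  have hκ : 0 < α + m * n := by positivity
  have hrow : ∀ i : Fin n, ∑ j, |(S n α m)⁻¹ i j|
      = (α + m * (n - 2) + m * n) / (α * (α + m * n)) := by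
    intro i
    rw [S_inv hα hm, ← Finset.add_sum_erase _ _ (mem_univ i)]
    have hcard : ((univ.erase i : Finset (Fin n)).card : ℝ) = n - 1 := by
      rw [Finset.card_erase_of_mem (mem_univ i), Finset.card_univ, Fintype.card_fin,
        Nat.cast_sub (by omega)]
      simp
    have e1 : ∀ j ∈ univ.erase i, |((1 / α) • (1 : Matrix (Fin n) (Fin n) ℝ)
      - (m / (α * (α + m * n))) • (Matrix.of fun _ _ => 1 : Matrix (Fin n) (Fin n) ℝ)) i j|
        = m / (α * (α + m * n)) := by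
      intro j hj
      have : i ≠ j := (Finset.ne_of_mem_erase hj).symm
      simp only [Matrix.sub_apply, Matrix.smul_apply, Matrix.one_apply_ne this, Matrix.of_apply,
        smul_eq_mul, mul_zero, mul_one, zero_sub, abs_neg]
      exact abs_of_pos (by positivity)
    rw [Finset.sum_congr rfl e1, Finset.sum_const, nsmul_eq_mul, hcard]
    simp only [Matrix.sub_apply, Matrix.smul_apply, Matrix.one_apply_eq, Matrix.of_apply,
        smul_eq_mul, mul_one]
    have hp : 0 < 1 / α - m / (α * (α + m * n)) := by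
      have : 1 / α - m / (α * (α + m * n)) = (α + m * (n - 1)) / (α * (α + m * n)) := by
        field_simp; ring
      rw [this]
      have : 0 < m * ((n:ℝ) - 1) := mul_pos hm (by linarith)
      positivity
    rw [abs_of_pos hp]
    field_simp
    ring
  unfold normInf
  have : Nonempty (Fin n) := ⟨⟨0, by omega⟩⟩
  simp only [hrow]
  exact ciSup_const

/-- For every `n ≥ 3`, `m > 0`, `δ ≥ 0`, with `α = m (n - 2) + δ`: every `J ∈ C_n(m, δ)` satisfies
`‖J⁻¹‖_∞ ≥ ‖S(α, m)⁻¹‖_∞ = (α + 2 m (n - 1)) / (α (α + m n))`, with equality iff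
`J = S(α, m)`. -/
theorem result (n : ℕ) (hn : 3 ≤ n) (m δ : ℝ) (hm : 0 < m) (hδ : 0 ≤ δ) (α : ℝ)
    (hα : α = m * (n - 2) + δ) (J : Matrix (Fin n) (Fin n) ℝ) (hJ : InC m δ J) :
    normInf (S n α m)⁻¹ = (α + 2 * m * (n - 1)) / (α * (α + m * n)) ∧
      IsUnit J.det ∧ normInf (S n α m)⁻¹ ≤ normInf J⁻¹ ∧
      (normInf J⁻¹ = normInf (S n α m)⁻¹ ↔ J = S n α m) := by
  have hn' : (3:ℝ) ≤ n := by exact_mod_cast hn
  have hα0 : 0 < α := by
    have : 0 < m * ((n:ℝ) - 2) := mul_pos hm (by linarith)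
    rw [hα]; linarith
  have hSn : normInf (S n α m)⁻¹ = (α + 2 * m * (n - 1)) / (α * (α + m * n)) := by
    rw [S_norm hn hα0 hm]; congr 1; ring
  set ρ : ℝ := (α + 2 * m * (n - 1)) / (α * (α + m * n)) with hρ
  have hrow := fun i => row hn hm hδ hJ i
  have eα : m * ((n : ℝ) - 1 - 1) + δ = α := by rw [hα]; ring
  have eκ : 2 * m * ((n : ℝ) - 1) + δ = α + m * n := by rw [hα]; ring
  simp only [eα, eκ] at hrow
  have hw := weighted hn hJ
  have hR : 0 < ∑ i, rs J i := by
    have : Nonempty (Fin n) := ⟨⟨0, by omega⟩⟩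
    refine Finset.sum_pos (fun i _ => ?_) univ_nonempty
    exact Finset.sum_pos (fun j _ => hJ.pos i j) univ_nonempty
  have hsum : ρ * ∑ i, rs J i ≤ ∑ i, (2 * rs J i * J⁻¹ i i - 1) := by
    rw [Finset.mul_sum]
    exact Finset.sum_le_sum fun i _ => (hrow i).2.1
  have hmain : ρ ≤ normInf J⁻¹ := le_of_mul_le_mul_right (hsum.trans hw) hR
  refine ⟨hSn, det_ne hn hJ, by rw [hSn]; exact hmain, ?_⟩
  rw [hSn]
  constructor
  · intro heq
    -- all rows are extremal
    have hall : ∀ i, rs J i = α + m * n := by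
      intro i
      by_contra hne
      have hlt : rs J i < α + m * n := lt_of_le_of_ne (hrow i).1 hne
      have : ρ * ∑ i, rs J i < ∑ i, (2 * rs J i * J⁻¹ i i - 1) := by
        rw [Finset.mul_sum]
        exact Finset.sum_lt_sum (fun i _ => (hrow i).2.1) ⟨i, mem_univ i, (hrow i).2.2 hlt⟩
      rw [heq] at hw
      linarith
    have hentry : ∀ i, ∀ j ∈ univ.erase i, J i j = m := by
      intro i
      have hcard : ((univ.erase i : Finset (Fin n)).card : ℝ) = n - 1 := by
        rw [Finset.card_erase_of_mem (mem_univ i), Finset.card_univ, Fintype.card_fin,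
          Nat.cast_sub (by omega)]
        simp
      have h1 := hall i
      rw [rs_eq] at h1
      have h2 := hJ.dom_le i
      rw [dom] at h2
      have h3 : ∑ j ∈ univ.erase i, (m - J i j) ≤ 0 := by
        rw [Finset.sum_sub_distrib, Finset.sum_const, nsmul_eq_mul, hcard]
        rw [hα] at h1
        linarith
      have h4 : ∀ j ∈ univ.erase i, 0 ≤ m - J i j := fun j hj => by
        have := hJ.le i j (Finset.ne_of_mem_erase hj).symm
        linarith
      have h5 : ∑ j ∈ univ.erase i, (m - J i j) = 0 := le_antisymm h3 (Finset.sum_nonneg h4)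
      intro j hj
      have := (Finset.sum_eq_zero_iff_of_nonneg h4).1 h5 j hj
      linarith
    ext i j
    by_cases hij : i = j
    · subst hij
      have h1 := hall i
      rw [rs_eq, Finset.sum_congr rfl (hentry i), Finset.sum_const, nsmul_eq_mul] at h1
      have hcard : ((univ.erase i : Finset (Fin n)).card : ℝ) = n - 1 := by
        rw [Finset.card_erase_of_mem (mem_univ i), Finset.card_univ, Fintype.card_fin,
          Nat.cast_sub (by omega)]
        simp
      rw [hcard] at h1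
      simp only [S, Matrix.add_apply, Matrix.smul_apply, Matrix.one_apply_eq, Matrix.of_apply,
        smul_eq_mul, mul_one]
      linarith
    · rw [hentry i j (mem_erase.2 ⟨Ne.symm hij, mem_univ j⟩)]
      simp [S, Matrix.one_apply_ne hij]
  · intro heq
    rw [heq]
    exact hSn

end Pool.Agent.Results.MP_7ad8d2_an.MinimalInverse
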